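import Pool.Agent.Helper47_BSE.Fin
import Pool.Agent.Helper9_BSE.MO2

/-!
# Final form of the Bose sector theorems (problem MP_3b0ba7_pr)
-/

open MeasureTheory Matrix Finset

namespace Pool.Agent.BSE.H47

open Pool.Agent.Helper64_FR

theorem mo2 : MO2Stmt := H9.mo2 (H30.mo1 sc1 H81.inv)

theorem main4 (n : ℕ) (hn : 2 ≤ n) (k : ℕ) (hk : 4 ≤ k)
    (w : Finset (Fin n) → ℝ) (hw : ∀ B, 0 ≤ w B)
    (α ρ : URep n) (hα : α.IsAdjoint) (hρ : IsBose k ρ) : α.lamMin w ≤ ρ.lamMin w :=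
  main mo2 n hn k (by omega) w hw (fun h => by omega) α ρ hα hρ

theorem main3 (n : ℕ) (hn : 2 ≤ n)
    (w : Finset (Fin n) → ℝ) (hw : ∀ B, 0 ≤ w B)
    (h3 : ∀ B, w B ≠ 0 → B.card ≤ 2 ∨ B = Finset.univ)
    (α ρ : URep n) (hα : α.IsAdjoint) (hρ : IsBose 3 ρ) : α.lamMin w ≤ ρ.lamMin w :=
  main mo2 n hn 3 le_rfl w hw (fun _ => h3) α ρ hα hρ

end Pool.Agent.BSE.H47
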