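import Pool.Agent.BSE.Stmts3
import Pool.Agent.Helper76_BSE.Av3
import Pool.Agent.Helper59_BSE.Ce1
import Pool.Agent.Helper76_BSE.Cer
import Pool.Agent.Helper61_BSE.CUB
import Pool.Agent.Helper69_BSE.Eig
import Pool.Agent.Helper60_BSE.In3
import Pool.Agent.Helper60_BSE.Mo3
import Pool.Agent.Helper77_BSE.IN4
import Pool.Agent.Helper81_BSE.Inv
import Pool.Agent.Helper30_BSE.MO1
import Pool.Agent.Helper69_BSE.Ndg
import Pool.Agent.Helper59_BSE.One
import Pool.Agent.Helper65_BSE.OSC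
import Pool.Agent.Helper65_BSE.SUP
import Pool.Agent.Helper59_BSE.Red
import Pool.Agent.Helper72_BSE.RF3
import Pool.Agent.Helper72_BSE.UN3
import Pool.Agent.Helper10_BSE.Rou
import Pool.Agent.Helper25_BSE.SC1
import Pool.Agent.Helper17_BSE.SCH
import Pool.Agent.Helper3_BSE.SPN
import Pool.Agent.Helper39_BSE.TRN
import Pool.Agent.Helper81_BSE.Wts
import Pool.Agent.Helper64_FR.LOW

/-!
# Assembly of the Bose sector theorem (problem MP_3b0ba7_pr)
-/

open MeasureTheory Matrix Finset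

namespace Pool.Agent.BSE.H47

open Pool.Agent.Helper64_FR

theorem sc1 : SC1Stmt := H25.sc1 H10.rou H39.trn H81.inv

theorem red : REDStmt :=
  H59.red H81.wts (H69.ndg H3.spn) (H69.eig (H17.sch sc1) H3.spn) H3.spn

theorem sup (mo2 : MO2Stmt) : SUPStmt :=
  H65.sup (H76.cer mo2 H77.in4 H59.ce1) H65.osc H59.ce1

theorem cub (mo2 : MO2Stmt) : CUBStmt :=
  H61.cub_of H72.rf3 (H60.in3 (H60.mo3 mo2 H81.inv) H81.inv) H76.av3 H72.un3

theorem main (mo2 : MO2Stmt) (n : ℕ) (hn : 2 ≤ n) (k : ℕ) (hk : 3 ≤ k)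
    (w : Finset (Fin n) → ℝ) (hw : ∀ B, 0 ≤ w B)
    (h3 : k = 3 → ∀ B, w B ≠ 0 → B.card ≤ 2 ∨ B = Finset.univ)
    (α ρ : URep n) (hα : α.IsAdjoint) (hρ : IsBose k ρ) : α.lamMin w ≤ ρ.lamMin w := by
  have hone := H59.one n α hα w hw
  obtain ⟨hd, hr⟩ := red n k hn ρ hρ
  refine le_csInf (LOW.eig_nonempty ρ hd w) ?_
  rintro x ⟨v, hv0, hv⟩
  rcases hr w hw _ hone x v hv0 hv with h | ⟨f, hf, hne, hE⟩
  · exact h
  · rcases Nat.lt_or_ge k 4 with h4 | h4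
    · obtain rfl : k = 3 := by omega
      exact cub mo2 n w hw (h3 rfl) _ x f hone hf hne hE
    · exact sup mo2 n k h4 w hw _ x f hone hf hne hE

end Pool.Agent.BSE.H47
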