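import Pool.Agent.BSE.Stmts4
import Pool.Agent.Helper59_BSE.One
import Pool.Agent.Helper64_FR.LOW

/-!
# Assembly: all irreducible representations with exactly one positive (or one negative) entry
(problem MP_3b0ba7_pr)
-/

open MeasureTheory Matrix Finset

namespace Pool.Agent.BSE.H47

open Pool.Agent.Helper64_FR

theorem row_of (rd2 : RD2Stmt) (su2 : SU2Stmt) (n : ℕ) (hn : 2 ≤ n) (k : ℕ) (hk : 4 ≤ k)
    (w : Finset (Fin n) → ℝ) (hw : ∀ B, 0 ≤ w B)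
    (α ρ : URep n) (hα : α.IsAdjoint) (hd : 0 < ρ.dim) (hρ : IsRow k ρ) :
    α.lamMin w ≤ ρ.lamMin w := by
  have hone := H59.one n α hα w hw
  refine le_csInf (LOW.eig_nonempty ρ hd w) ?_
  rintro x ⟨v, hv0, hv⟩
  rcases rd2 n k hn ρ hρ w hw _ hone x v hv0 hv with h | ⟨f, hf, hne, hE⟩
  · exact h
  · exact su2 n k hk w hw _ x f hone hf hne hE

theorem row_main (rd2 : RD2Stmt) (su2 : SU2Stmt) (cj' : CJStmt) (n : ℕ) (hn : 2 ≤ n) (k : ℕ)
    (hk : 4 ≤ k) (w : Finset (Fin n) → ℝ) (hw : ∀ B, 0 ≤ w B)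
    (α ρ : URep n) (hα : α.IsAdjoint) (hirr : ρ.Irred) (hρ : IsRow k ρ ∨ IsRow k (cj ρ)) :
    α.lamMin w ≤ ρ.lamMin w := by
  rcases hρ with h | h
  · exact row_of rd2 su2 n hn k hk w hw α ρ hα hirr.1 h
  · rw [← cj' n ρ w]
    exact row_of rd2 su2 n hn k hk w hw α (cj ρ) hα hirr.1 h

end Pool.Agent.BSE.H47
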