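import Pool.Agent.BSE.Stmts5
import Pool.Agent.Helper47_BSE.Fin4

/-!
# Assembly: all irreducible representations with exactly one positive (or one negative) entry,
including the levels 2 and 3 (problem MP_3b0ba7_pr)
-/

open MeasureTheory Matrix Finset

namespace Pool.Agent.BSE.H47

open Pool.Agent.Helper64_FR

theorem ns_of (rd3 : RD3Stmt) (su3 : SU3Stmt) (sk2 : SK2Stmt) (n : ℕ) (hn : 2 ≤ n) (k : ℕ)
    (hk : k = 2 ∨ k = 3) (w : Finset (Fin n) → ℝ) (hw : ∀ B, 0 ≤ w B)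
    (α ρ : URep n) (hα : α.IsAdjoint) (hd : 0 < ρ.dim) (hρ : IsRowNS k ρ) :
    α.lamMin w ≤ ρ.lamMin w := by
  have hone := H59.one n α hα w hw
  refine le_csInf (LOW.eig_nonempty ρ hd w) ?_
  rintro x ⟨v, hv0, hv⟩
  rcases rd3 n k hn ρ hρ w hw _ hone x v hv0 hv with h | ⟨f, hf, hne, hE, hs⟩
  · exact h
  · rcases hk with rfl | rfl
    · exact sk2 n w hw _ x f hone hf hne hE hs
    · exact su3 n w hw _ x f hone hf hne hE hs

theorem all_main (rd2 : RD2Stmt) (su2 : SU2Stmt) (cj' : CJStmt) (rd3 : RD3Stmt) (su3 : SU3Stmt)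
    (sk2 : SK2Stmt) (n : ℕ) (hn : 2 ≤ n) (k : ℕ)
    (w : Finset (Fin n) → ℝ) (hw : ∀ B, 0 ≤ w B)
    (α ρ : URep n) (hα : α.IsAdjoint) (hirr : ρ.Irred)
    (hρ : (4 ≤ k ∧ (IsRow k ρ ∨ IsRow k (cj ρ))) ∨
      ((k = 2 ∨ k = 3) ∧ (IsRowNS k ρ ∨ IsRowNS k (cj ρ)))) :
    α.lamMin w ≤ ρ.lamMin w := by
  rcases hρ with ⟨hk, h⟩ | ⟨hk, h⟩
  · exact row_main rd2 su2 cj' n hn k hk w hw α ρ hα hirr h
  · rcases h with h | h
    · exact ns_of rd3 su3 sk2 n hn k hk w hw α ρ hα hirr.1 h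
    · rw [← cj' n ρ w]
      exact ns_of rd3 su3 sk2 n hn k hk w hw α (cj ρ) hα hirr.1 h

end Pool.Agent.BSE.H47
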