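import Pool.Agent.Helper47_BSE.Fin2
import Pool.Agent.Helper47_BSE.Fin5
import Pool.Agent.Helper10_BSE.SR1
import Pool.Agent.Helper52_BSE.SR2
import Pool.Agent.Helper65_BSE.SU2
import Pool.Agent.Helper76_BSE.Nd2
import Pool.Agent.Helper76_BSE.Ex2
import Pool.Agent.Helper69_BSE.Cj
import Pool.Agent.Helper69_BSE.Eg2
import Pool.Agent.Helper69_BSE.Sp2
import Pool.Agent.Helper86_BSE.RD3
import Pool.Agent.Helper65_BSE.IRR

/-!
# Assembly of stage 2 and 3 (problem MP_3b0ba7_pr): all rows proved before level 3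
-/

open MeasureTheory Matrix Finset

namespace Pool.Agent.BSE.H47

open Pool.Agent.Helper64_FR

theorem sr1 : SR1Stmt := H10.sr1 H39.trn H81.inv

theorem eg2 : EG2Stmt := H69E2.eg2 (H52.sr2 sr1) H69S.sp2

theorem nd2 : ND2Stmt := H76.nd2 H69S.sp2

theorem su2 : SU2Stmt := H65.su2 (H76.cer mo2 H77.in4 H59.ce1) H65.osc H59.ce1

theorem rd3 : RD3Stmt := H86.rd3 H81.wts nd2 eg2 H69S.sp2

end Pool.Agent.BSE.H47
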