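import Pool.Agent.Helper47_BSE.Fin6
import Pool.Agent.Helper72_BSE.RF4
import Pool.Agent.Helper60_BSE.Av4
import Pool.Agent.Helper60_BSE.Su3
import Pool.Agent.Helper68_BSE.CNB
import Pool.Agent.Helper68_BSE.E1B
import Pool.Agent.Helper68_BSE.Q2B
import Pool.Agent.Helper68_BSE.Q3B
import Pool.Agent.Helper35_BSE.Csp
import Pool.Agent.Helper35_BSE.Eab
import Pool.Agent.Helper85_BSE.DVB
import Pool.Agent.Helper85_BSE.EMX
import Pool.Agent.Helper85_BSE.SK2
import Pool.Agent.Helper65_BSE.E2B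
import Pool.Agent.Helper1_BSE.ESP
import Pool.Agent.Helper34_BSE.MO5
import Pool.Agent.Helper6_BSE.EXI

/-!
# Final assembly: exactly one positive (or one negative) entry (problem MP_3b0ba7_pr)
-/

open MeasureTheory Matrix Finset

namespace Pool.Agent.BSE.H47

open Pool.Agent.Helper64_FR

theorem rd2 : RD2Stmt := by
  intro n k hn ρ hρ w hw μ hμ x v hv hx
  obtain ⟨T, hT⟩ := hρ
  rcases H81.wts n hn ρ w hw μ hμ x v hv hx with h | h
  · exact Or.inl h
  · right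
    refine ⟨fun c => T v (fun s => dg (c s)), ?_, ?_, eg2 n k ρ T hT w x v hx⟩
    · obtain ⟨N, a, u, v', h1, h2⟩ := H69S.sp2 n k (T v) (hT.mem v)
      refine ⟨N, a, fun t s i => (starRingEnd ℂ) (v' t s i) * u t i, h1, fun c => ?_⟩
      change T v (fun s => dg (c s)) = _
      rw [h2]
      apply Finset.sum_congr rfl
      intro t _
      congr 1
      apply Finset.prod_congr rfl
      intro s _
      rw [H86.bil_dg]
    · by_contra hc
      push Not at hc
      exact hv (nd2 n k ρ T hT v h hc)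

theorem mo5 : MO5Stmt := H34.mo5 mo2

theorem e2b : E2BStmt := H65e.e2b H68.q2b H68.q3b H68.cnb

theorem emx : EMXStmt := H85.emx H1.esp H35.csp H68.e1b e2b

theorem emt : EMTStmt := H35.emt H68.q3b H68.cnb

theorem su3 : SU3Stmt := H60d.su3 H72.rf4 (H60d.av4 mo5) H85.dvb emx emt H35.eab

theorem sk2 : SK2Stmt := H85.sk2 mo5 H81.inv

/-- The final theorem. -/
theorem all_final (n : ℕ) (hn : 2 ≤ n) (k : ℕ)
    (w : Finset (Fin n) → ℝ) (hw : ∀ B, 0 ≤ w B)
    (α ρ : URep n) (hα : α.IsAdjoint) (hd : 0 < ρ.dim)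
    (hρ : (4 ≤ k ∧ (IsRow k ρ ∨ IsRow k (cj ρ))) ∨
      ((k = 2 ∨ k = 3) ∧ (IsRowNS k ρ ∨ IsRowNS k (cj ρ)))) :
    α.lamMin w ≤ ρ.lamMin w := by
  rcases hρ with ⟨hk, h⟩ | ⟨hk, h⟩
  · rcases h with h | h
    · exact row_of rd2 su2 n hn k hk w hw α ρ hα hd h
    · rw [← H69J.cj n ρ w]
      exact row_of rd2 su2 n hn k hk w hw α (BSE.cj ρ) hα hd h
  · rcases h with h | h
    · exact ns_of rd3 su3 sk2 n hn k hk w hw α ρ hα hd h
    · rw [← H69J.cj n ρ w]
      exact ns_of rd3 su3 sk2 n hn k hk w hw α (BSE.cj ρ) hα hd h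

/-- existence of the representations in the theorem, levels `k ≥ 4` -/
theorem exists_row (n k : ℕ) (hn : 2 ≤ n) : ∃ ρ : URep n, 0 < ρ.dim ∧ IsRow k ρ :=
  H76.ex2 n k hn

end Pool.Agent.BSE.H47
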